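import Pool.Agent.H503.MB.Core

/-!
# Multiplicative primes: the analytic `μ`-invariant is zero for `p = 2` and `p = 3`

Let `f` be the newform of an elliptic curve `E/ℚ` of conductor `N` (the hypotheses which are used are
`IsElliptic`).  For `s = 1` and `s = -1` the numbers `c + s c̄`, `c` a period of `f` for `Γ₀(N)`, are the
integral multiples of a number `Ω_s ≠ 0` (twice the real or imaginary parts of the periods).

Let `E` have multiplicative reduction at `p`: `p` divides `N` exactly once, `c(p) = 1` or `c(p) = -1`, and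
`f` is an eigenform of the Atkin-Lehner operator `W_p` with the eigenvalue `-c(p)` (`IsMultiplicative`).
There is **no** hypothesis on `E[p]`, which may be reducible, and no hypothesis on congruences.  Then
for all sufficiently large `n` some primitive character `χ` modulo `p^n` with `χ(-1) = s` has
`e G(χ̄) L(f, χ, 1) = Ω_s λ`, where `e = 1` for `p = 2`, `e = 2` for `p ≠ 2`, and `λ ∈ ℤ[χ]` is **not**
divisible by `p`.  If `p = 3` or `p = 2`, then this holds for **all** primitive `χ` modulo `p^n` with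
`χ(-1) = s`.  So the `μ`-invariants of the `p`-adic `L`-function of `f` (with respect to the periods of
`Γ₀(N)`) are zero for `p = 2` and `p = 3`.

Sketch of proof.  Let `K(x, y)` be the suitably normalised value of the modular symbol `{i∞, x/y}`, an
integer; the value of `{i∞, γ i∞}`, `γ ∈ Γ₀(N)`, is divisible by `D ≠ 0`, with equality for one `γ`.  If
the assertion fails, then the relation for `U_p` shows that `K(a, p^m) = 0` modulo the power
`p^{v(D)+1}` for all `a` prime to `p` and all `m ≥ 1`.  The values of `K` modulo this power define a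
function on the edges of the tree of `SL₂(ℚ_p)`, the two ends of an edge being exchanged by `W_p`; for the
group generated by `Γ₀(N)`, `W_p` and the `p`-power translations the function `x ↦ K(x, 1) - K(0, 1)`
on `ℤ_p ∩ ℚ` is a cocycle with values in measures on `ℙ¹(ℚ_p)`, which vanishes on all translations.  One
deduces that all values in question are divisible by `p`, hence (since `p` is nilpotent) zero.  So all
periods of `Γ₀(N)` are divisible by `p^{v(D)+1}`, which is impossible.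
-/

set_option autoImplicit false

open Complex UpperHalfPlane MatrixGroups CongruenceSubgroup

namespace Pool.Agent.Results.MP_ffe9ba_nt.MuZeroMultiplicative

/-- The `n`-th Fourier coefficient `c(n)` of `f`. -/
noncomputable def coef {N : ℕ} (f : CuspForm (Gamma0 N : Subgroup (GL (Fin 2) ℝ)) 2) (n : ℕ) : ℂ :=
  (qExpansion 1 f).coeff n

/-- The primitive `∑ c(n)/n e^(2πinz) = 2πi ∫_{i∞}^z f(w) dw` of `2πi f(z) dz`. -/
noncomputable def prim {N : ℕ} (f : CuspForm (Gamma0 N : Subgroup (GL (Fin 2) ℝ)) 2) (z : ℂ) : ℂ :=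
  ∑' n : ℕ, coef f n / n * Complex.exp (2 * Real.pi * Complex.I * n * z)

/-- `c` is a period `2πi ∫_z^{γz} f(w) dw` of `f`, `γ ∈ Γ₀(N)`. -/
def IsPeriod {N : ℕ} (f : CuspForm (Gamma0 N : Subgroup (GL (Fin 2) ℝ)) 2) (c : ℂ) : Prop :=
  ∃ γ ∈ Gamma0 N, ∀ z : ℍ, prim f ((γ • z : ℍ) : ℂ) = prim f (z : ℂ) + c

/-- The hypotheses on `f`: integral coefficients `c(n)`, `c(1) = 1`, the Hecke relations
`c(l m) + l c(m / l) = c(l) c(m)` and Hasse's bound `c(l)² ≤ 4 l` for the primes `l ∤ N`, and periods in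
a lattice.  They hold for the newform of every elliptic curve over `ℚ` of conductor `N`. -/
structure IsElliptic {N : ℕ} (f : CuspForm (Gamma0 N : Subgroup (GL (Fin 2) ℝ)) 2) : Prop where
  level : N ≠ 0
  one : coef f 1 = 1
  integral : ∀ n, ∃ c : ℤ, coef f n = c
  hecke : ∀ l m : ℕ, l.Prime → ¬ l ∣ N →
    coef f (l * m) + (if l ∣ m then (l : ℂ) * coef f (m / l) else 0) = coef f l * coef f m
  hasse : ∀ l : ℕ, l.Prime → ¬ l ∣ N → ‖coef f l‖ ^ 2 ≤ 4 * l
  lattice : ∃ ω₁ ω₂ : ℂ, (ω₁ * (starRingEnd ℂ) ω₂).im ≠ 0 ∧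
    ∀ γ : SL(2, ℤ), γ ∈ Gamma0 N → ∃ x y : ℤ, ∀ z : ℍ,
      prim f ((γ • z : ℍ) : ℂ) = prim f (z : ℂ) + (x * ω₁ + y * ω₂)

/-- Multiplicative reduction at the prime `p`: `p` divides `N` exactly once, `c(p) = ± 1`,
`c(p m) = c(p) c(m)` for all `m`, and `f ∣ W = -c(p) f` for the Atkin-Lehner matrices
`W = (p a, b; c, p d)`, `N ∣ c`, of determinant `p`: `p f(Wz) = -c(p) (c z + p d)² f(z)`. -/
structure IsMultiplicative {N : ℕ} (f : CuspForm (Gamma0 N : Subgroup (GL (Fin 2) ℝ)) 2) (p : ℕ) :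
    Prop where
  prime : p.Prime
  dvd : p ∣ N
  once : ¬ p ^ 2 ∣ N
  sign : coef f p = 1 ∨ coef f p = -1
  hecke : ∀ m : ℕ, coef f (p * m) = coef f p * coef f m
  atkinLehner : ∀ a b c d : ℤ, (p : ℤ) * a * (p * d) - b * c = p → (N : ℤ) ∣ c → ∀ z w : ℍ,
    (w : ℂ) * ((c : ℂ) * z + p * d) = p * a * z + b →
      (p : ℂ) * f w = -coef f p * ((c : ℂ) * z + p * d) ^ 2 * f z

/-- The numbers `c + s c̄`, `c` a period of `f`, are the integral multiples of `Ω ≠ 0`. -/
def Generates {N : ℕ} (f : CuspForm (Gamma0 N : Subgroup (GL (Fin 2) ℝ)) 2) (s Ω : ℂ) : Prop :=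
  Ω ≠ 0 ∧ ∀ w : ℂ, (∃ c, IsPeriod f c ∧ w = c + s * (starRingEnd ℂ) c) ↔ ∃ k : ℤ, w = k * Ω

/-- The Gauss sum `G(χ̄) = ∑ χ̄(a) e^(2πia/M)`, `0 ≤ a < M`. -/
noncomputable def gauss {M : ℕ} (χ : DirichletCharacter ℂ M) : ℂ :=
  ∑ a ∈ Finset.range M, χ⁻¹ (a : ZMod M) * Complex.exp (2 * Real.pi * Complex.I * a / M)

/-- The factor `e`: `1` for `p = 2` and `2` for `p ≠ 2` (always prime to `p`). -/
def factor (p : ℕ) : ℕ := if p = 2 then 1 else 2

/-- `λ = l` is an element of `ℤ[χ]`, `L(f, χ, s) = ∑ χ(n) c(n) n^(-s)` continues to an entire function,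
and `e G(χ̄) L(f, χ, 1) = Ω λ`. -/
def IsAlgebraicPart {M : ℕ} (c : ℕ → ℂ) (e : ℕ) (Ω : ℂ) (χ : DirichletCharacter ℂ M)
    (l : integralClosure ℤ ℂ) : Prop :=
  (l : ℂ) ∈ Algebra.adjoin ℤ (Set.range χ) ∧ ∃ L : ℂ → ℂ, Differentiable ℂ L ∧
    (∀ s : ℂ, 2 < s.re → L s = LSeries (fun n => χ n * c n) s) ∧
    e * gauss χ * L 1 = Ω * (l : ℂ)

/-- The algebraic part `λ` of `L(f, χ, 1)` is not divisible by `p` (in the ring of all algebraic
integers). -/
def NonzeroModP {N M : ℕ} (f : CuspForm (Gamma0 N : Subgroup (GL (Fin 2) ℝ)) 2) (p : ℕ) (Ω : ℂ)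
    (χ : DirichletCharacter ℂ M) : Prop :=
  ∃ l : integralClosure ℤ ℂ, IsAlgebraicPart (coef f) (factor p) Ω χ l ∧
    ¬ (p : integralClosure ℤ ℂ) ∣ l

theorem result {N : ℕ} (f : CuspForm (Gamma0 N : Subgroup (GL (Fin 2) ℝ)) 2) (hf : IsElliptic f)
    (p : ℕ) (hp : IsMultiplicative f p) (s : ℂ) (hs : s = 1 ∨ s = -1) :
    ∃ Ω : ℂ, Generates f s Ω ∧ ∃ n₀ : ℕ, ∀ n ≥ n₀,
      (∃ χ : DirichletCharacter ℂ (p ^ n), χ.IsPrimitive ∧ χ (-1) = s ∧ NonzeroModP f p Ω χ) ∧
      (p = 2 ∨ p = 3 → ∀ χ : DirichletCharacter ℂ (p ^ n), χ.IsPrimitive → χ (-1) = s →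
        NonzeroModP f p Ω χ) := by
  obtain ⟨N', rfl⟩ := hp.dvd
  have hN0 : NeZero (p * N') := ⟨hf.level⟩
  have hpN : ¬ p ∣ N' := by
    intro h
    apply hp.once
    rw [pow_two]
    exact mul_dvd_mul_left _ h
  have hreal : ∀ n, (coef f n).im = 0 := by
    intro n
    obtain ⟨c, hc⟩ := hf.integral n
    rw [hc]
    simp
  have hne : f ≠ 0 := by
    rintro rfl
    have h1 := hf.one
    unfold coef at h1
    have h2 : (qExpansion 1 (0 : CuspForm (Gamma0 (p * N') : Subgroup (GL (Fin 2) ℝ)) 2)).coeff 1 =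
        0 := by
      have h3 : ((0 : CuspForm (Gamma0 (p * N') : Subgroup (GL (Fin 2) ℝ)) 2) : ℍ → ℂ) = 0 := rfl
      rw [h3, qExpansion_zero, map_zero]
    rw [h2] at h1
    exact zero_ne_one h1
  obtain ⟨Ω, hΩ⟩ := H503.TA.exists_generator f hreal hf.lattice hs
  have hΩ0 := H503.TA.generator_ne_zero f hne hs hΩ
  -- the auxiliary prime
  obtain ⟨q, -, hq, hq1⟩ := Nat.forall_exists_prime_gt_and_eq_mod (q := p * N') (a := 1) isUnit_one 0
  have hq1' : ((p * N' : ℕ) : ℤ) ∣ q - 1 := by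
    rw [← ZMod.intCast_zmod_eq_zero_iff_dvd]
    push_cast
    rw [hq1, sub_self]
  have hqN : ¬ q ∣ p * N' := by
    intro hd
    have h5 : (q : ℤ) ∣ q - 1 := (Int.natCast_dvd_natCast.2 hd).trans hq1'
    have h6 : (q : ℤ) ∣ 1 := by
      have := dvd_sub (dvd_refl (q : ℤ)) h5
      rwa [sub_sub_cancel] at this
    have h7 : q ∣ 1 := by exact_mod_cast h6
    exact hq.one_lt.ne' (Nat.dvd_one.1 h7)
  obtain ⟨cq, hcq⟩ := hf.integral q
  have hTq : H503.MU.HeckeAt f q cq := by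
    intro m
    have := hf.hecke q m hq hqN
    rw [hcq] at this
    exact this
  have hne2 : cq ≠ q + 1 := by
    intro h
    have h1 := hf.hasse q hq hqN
    rw [hcq, h] at h1
    have h2 : ‖(((q : ℤ) + 1 : ℤ) : ℂ)‖ = (q : ℝ) + 1 := by
      push_cast
      have h3 : ((q : ℂ) + 1) = ((q + 1 : ℕ) : ℂ) := by push_cast; ring
      rw [h3, Complex.norm_natCast]
      push_cast
      ring
    rw [h2] at h1
    have h3 : (2 : ℝ) ≤ q := by exact_mod_cast hq.two_le
    nlinarith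
  -- the sign
  obtain ⟨α, hα, hcp⟩ : ∃ α : ℤ, (α = 1 ∨ α = -1) ∧ coef f p = α := by
    rcases hp.sign with h | h
    · exact ⟨1, Or.inl rfl, by rw [h]; norm_num⟩
    · exact ⟨-1, Or.inr rfl, by rw [h]; norm_num⟩
  have hU : H503.MB.UAt f p α := by
    intro m
    have := hp.hecke m
    rw [hcp] at this
    exact this
  have hAL : H503.MB.ALAt f p N' α := by
    intro a b c d hdet hc z w hzw
    have := hp.atkinLehner a b c d hdet (by push_cast; exact hc) z w hzw
    rw [hcp] at this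
    exact this
  obtain ⟨n₀, hn₀⟩ := H503.MB.finalM f hp.prime hpN hreal hs hΩ0 hΩ hα hU hAL hq hq1' hTq hne2
  exact ⟨Ω, ⟨hΩ0, hΩ⟩, n₀, hn₀⟩

end Pool.Agent.Results.MP_ffe9ba_nt.MuZeroMultiplicative
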