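import Pool.Agent.H503.MU.Out

/-!
# Supersingular primes: the signed analytic `μ`-invariants are zero for `p = 2` and `p = 3`

Let `f` be a normalised cusp form of weight two on `Γ₀(N)` with integral Fourier coefficients `c(n)`
which is an eigenform of the Hecke operators `T_l`, `l ∤ N`, and whose periods lie in a lattice: for
example the newform of an elliptic curve `E/ℚ` of conductor `N`.  For `s = 1` and `s = -1` the numbers
`c + s c̄`, `c` a period of `f`, are the integral multiples of a number `Ω_s ≠ 0` (twice the real or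
imaginary parts of the periods).

Let `p ∤ N` be a supersingular prime, `p ∣ c(p)`, and let `c(q) ≢ q + 1 (mod p)` for one prime
`q ≡ 1 (mod N)`, `q ≠ p`.  (By Chebotarev there are infinitely many such `q`, since `E[p]` is irreducible
as a representation of the inertia group at `p`.)  Then for all sufficiently large `n` some primitive
character `χ` modulo `p^n` with `χ(-1) = s` has `G(χ̄) L(f, χ, 1) = Ω_s λ`, where `λ ∈ ℤ[χ]` is **not**
divisible by `p`.  If `p = 3` or `p = 2`, then this holds for **all** primitive `χ` modulo `p^n` with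
`χ(-1) = s`.

Sketch of proof.  Let `Ψ(x, y)` be the (suitably normalised) value of the modular symbol
`{i∞, x/y}` modulo `p`.  If the values are divisible by `p` for infinitely many `n`, then
`Ψ(a, p^m) = 0` for all `a` prime to `p` and all `m` of one parity.  Let `γ ∈ Γ₀(N)` have the first column
`(a, c)`, `p ∤ c`.  If the values vanish for all even `m`, then explicit matrices of `Γ₀(N)` with entries
`p^k`, `p^k ≡ 1 (mod N a c)`, and the relations for `T_p` (`c(p) = 0` modulo `p`) show that the period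
of `γ` is zero modulo `p`, and similarly for all odd `m`.  So all periods are divisible by `p`, which is
impossible.
-/

set_option autoImplicit false

open Complex UpperHalfPlane MatrixGroups CongruenceSubgroup

namespace Pool.Agent.Results.MP_ffe9ba_nt.MuZeroSupersingular

/-- The `n`-th Fourier coefficient of `f`. -/
noncomputable def coef {N : ℕ} (f : CuspForm (Gamma0 N : Subgroup (GL (Fin 2) ℝ)) 2) (n : ℕ) : ℂ :=
  (qExpansion 1 f).coeff n

/-- The primitive `∑ c(n)/n e^(2πinz) = 2πi ∫_{i∞}^z f(w) dw` of `2πi f(z) dz`. -/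
noncomputable def prim {N : ℕ} (f : CuspForm (Gamma0 N : Subgroup (GL (Fin 2) ℝ)) 2) (z : ℂ) : ℂ :=
  ∑' n : ℕ, coef f n / n * Complex.exp (2 * Real.pi * Complex.I * n * z)

/-- `c` is a period `2πi ∫_z^{γz} f(w) dw` of `f`, `γ ∈ Γ₀(N)`. -/
def IsPeriod {N : ℕ} (f : CuspForm (Gamma0 N : Subgroup (GL (Fin 2) ℝ)) 2) (c : ℂ) : Prop :=
  ∃ γ ∈ Gamma0 N, ∀ z : ℍ, prim f ((γ • z : ℍ) : ℂ) = prim f (z : ℂ) + c

/-- The hypotheses on `f`: integral coefficients `c(n)`, `c(1) = 1`, the Hecke relations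
`c(l m) + l c(m / l) = c(l) c(m)` for the primes `l ∤ N`, and periods in a lattice.  They hold for the
newform of an elliptic curve over `ℚ` of conductor `N`. -/
structure IsElliptic {N : ℕ} (f : CuspForm (Gamma0 N : Subgroup (GL (Fin 2) ℝ)) 2) : Prop where
  level : N ≠ 0
  one : coef f 1 = 1
  integral : ∀ n, ∃ c : ℤ, coef f n = c
  hecke : ∀ l m : ℕ, l.Prime → ¬ l ∣ N →
    coef f (l * m) + (if l ∣ m then (l : ℂ) * coef f (m / l) else 0) = coef f l * coef f m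
  lattice : ∃ ω₁ ω₂ : ℂ, (ω₁ * (starRingEnd ℂ) ω₂).im ≠ 0 ∧
    ∀ γ : SL(2, ℤ), γ ∈ Gamma0 N → ∃ x y : ℤ, ∀ z : ℍ,
      prim f ((γ • z : ℍ) : ℂ) = prim f (z : ℂ) + (x * ω₁ + y * ω₂)

/-- Supersingular reduction: `p` does not divide `N` and divides `c(p)`. -/
def IsSupersingular {N : ℕ} (f : CuspForm (Gamma0 N : Subgroup (GL (Fin 2) ℝ)) 2) (p : ℕ) : Prop :=
  p.Prime ∧ ¬ p ∣ N ∧ ∀ c : ℤ, coef f p = c → (p : ℤ) ∣ c

/-- There is a prime `q ≡ 1 (mod N)`, `q ≠ p`, with `c(q) ≢ q + 1 (mod p)`. -/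
def NonEisenstein {N : ℕ} (f : CuspForm (Gamma0 N : Subgroup (GL (Fin 2) ℝ)) 2) (p : ℕ) : Prop :=
  ∃ q : ℕ, q.Prime ∧ q ≠ p ∧ (N : ℤ) ∣ q - 1 ∧
    ∀ c : ℤ, coef f q = c → ¬ (p : ℤ) ∣ c - (q + 1)

/-- The numbers `c + s c̄`, `c` a period of `f`, are the integral multiples of `Ω ≠ 0`. -/
def Generates {N : ℕ} (f : CuspForm (Gamma0 N : Subgroup (GL (Fin 2) ℝ)) 2) (s Ω : ℂ) : Prop :=
  Ω ≠ 0 ∧ ∀ w : ℂ, (∃ c, IsPeriod f c ∧ w = c + s * (starRingEnd ℂ) c) ↔ ∃ k : ℤ, w = k * Ω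

/-- The Gauss sum `G(χ̄) = ∑ χ̄(a) e^(2πia/M)`, `0 ≤ a < M`. -/
noncomputable def gauss {M : ℕ} (χ : DirichletCharacter ℂ M) : ℂ :=
  ∑ a ∈ Finset.range M, χ⁻¹ (a : ZMod M) * Complex.exp (2 * Real.pi * Complex.I * a / M)

/-- `λ = l` is an element of `ℤ[χ]`, `L(f, χ, s) = ∑ χ(n) c(n) n^(-s)` continues to an entire function,
and `G(χ̄) L(f, χ, 1) = Ω λ`. -/
def IsAlgebraicPart {M : ℕ} (c : ℕ → ℂ) (Ω : ℂ) (χ : DirichletCharacter ℂ M)
    (l : integralClosure ℤ ℂ) : Prop :=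
  (l : ℂ) ∈ Algebra.adjoin ℤ (Set.range χ) ∧ ∃ L : ℂ → ℂ, Differentiable ℂ L ∧
    (∀ s : ℂ, 2 < s.re → L s = LSeries (fun n => χ n * c n) s) ∧ gauss χ * L 1 = Ω * (l : ℂ)

/-- The algebraic part `λ` of `L(f, χ, 1)` is not divisible by `p` (in the ring of all algebraic
integers). -/
def NonzeroModP {N M : ℕ} (f : CuspForm (Gamma0 N : Subgroup (GL (Fin 2) ℝ)) 2) (p : ℕ) (Ω : ℂ)
    (χ : DirichletCharacter ℂ M) : Prop :=
  ∃ l : integralClosure ℤ ℂ, IsAlgebraicPart (coef f) Ω χ l ∧ ¬ (p : integralClosure ℤ ℂ) ∣ l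

theorem result {N : ℕ} (f : CuspForm (Gamma0 N : Subgroup (GL (Fin 2) ℝ)) 2) (hf : IsElliptic f)
    (p : ℕ) (hp : IsSupersingular f p) (hE : NonEisenstein f p) (s : ℂ) (hs : s = 1 ∨ s = -1) :
    ∃ Ω : ℂ, Generates f s Ω ∧ ∃ n₀ : ℕ, ∀ n ≥ n₀,
      (∃ χ : DirichletCharacter ℂ (p ^ n), χ.IsPrimitive ∧ χ (-1) = s ∧ NonzeroModP f p Ω χ) ∧
      (p = 2 ∨ p = 3 → ∀ χ : DirichletCharacter ℂ (p ^ n), χ.IsPrimitive → χ (-1) = s →
        NonzeroModP f p Ω χ) := by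
  have hN0 : NeZero N := ⟨hf.level⟩
  have hreal : ∀ n, (coef f n).im = 0 := by
    intro n
    obtain ⟨c, hc⟩ := hf.integral n
    rw [hc]
    simp
  have hne : f ≠ 0 := by
    rintro rfl
    have h1 := hf.one
    unfold coef at h1
    have h2 : (qExpansion 1 (0 : CuspForm (Gamma0 N : Subgroup (GL (Fin 2) ℝ)) 2)).coeff 1 = 0 := by
      have h3 : ((0 : CuspForm (Gamma0 N : Subgroup (GL (Fin 2) ℝ)) 2) : ℍ → ℂ) = 0 := rfl
      rw [h3, qExpansion_zero, map_zero]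
    rw [h2] at h1
    exact zero_ne_one h1
  obtain ⟨Ω, hΩ⟩ := H503.TA.exists_generator f hreal hf.lattice hs
  have hΩ0 := H503.TA.generator_ne_zero f hne hs hΩ
  have hH : ∀ l : ℕ, l.Prime → ¬ l ∣ N → ∀ c : ℤ, coef f l = c → H503.MU.HeckeAt f l c := by
    intro l hl hlN c hc m
    have := hf.hecke l m hl hlN
    rw [hc] at this
    exact this
  have haux : ∀ q, (q.Prime ∧ q ≠ p ∧ (N : ℤ) ∣ q - 1 ∧
      ∀ c : ℤ, coef f q = c → ¬ (p : ℤ) ∣ c - (q + 1)) → H503.MU.AuxPrime f p q := by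
    rintro q ⟨h1, h2, h3, h4⟩
    have hqN : ¬ q ∣ N := by
      intro hd
      have h5 : (q : ℤ) ∣ q - 1 := (by exact_mod_cast hd : (q : ℤ) ∣ N).trans h3
      have h6 : (q : ℤ) ∣ 1 := by
        have := dvd_sub (dvd_refl (q : ℤ)) h5
        rwa [sub_sub_cancel] at this
      have h7 : q ∣ 1 := by exact_mod_cast h6
      exact h1.one_lt.ne' (Nat.dvd_one.1 h7)
    obtain ⟨c, hc⟩ := hf.integral q
    exact ⟨h1, h2, h3, hqN, c, hH q h1 hqN c hc, h4 c hc⟩
  obtain ⟨q, hq⟩ := hE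
  obtain ⟨cp, hcp⟩ := hf.integral p
  obtain ⟨n₀, hn₀⟩ := H503.MU.final f hp.1 hp.2.1 hreal hs hΩ0 hΩ (hH p hp.1 hp.2.1 cp hcp)
    (haux q hq) (Or.inl (hp.2.2 cp hcp))
  exact ⟨Ω, ⟨hΩ0, hΩ⟩, n₀, hn₀⟩

end Pool.Agent.Results.MP_ffe9ba_nt.MuZeroSupersingular
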